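import Pool.Agent.LSG.StmtsA

set_option autoImplicit false

open MeasureTheory Set Topology
open scoped BigOperators Pointwise

namespace Pool.Agent.LSG.H50

/-! general homeomorphisms of sigma types -/

lemma mkH {ι X : Type} {Z : ι → Type} [TopologicalSpace X] [∀ j, TopologicalSpace (Z j)]
    (F : ∀ j, Z j → X) (hF : ∀ j, IsOpenEmbedding (F j))
    (hinj : ∀ j j' (x : Z j) (x' : Z j'), F j x = F j' x' → j = j')
    (hs : ∀ y : X, ∃ j, ∃ x : Z j, F j x = y) : Nonempty ((Σ j, Z j) ≃ₜ X) := by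
  have hb : Function.Bijective (fun p : (Σ j, Z j) => F p.1 p.2) := by
    constructor
    · rintro ⟨j, x⟩ ⟨j', x'⟩ h
      have hj : j = j' := hinj j j' x x' h
      subst hj
      have : x = x' := (hF j).injective h
      rw [this]
    · intro y
      obtain ⟨j, x, h⟩ := hs y
      exact ⟨⟨j, x⟩, h⟩
  exact ⟨(Equiv.ofBijective _ hb).toHomeomorphOfContinuousOpen
    (continuous_sigma fun j => (hF j).continuous) (isOpenMap_sigma.2 fun j => (hF j).isOpenMap)⟩

lemma congrH {ι : Type} {Z W : ι → Type} [∀ j, TopologicalSpace (Z j)]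
    [∀ j, TopologicalSpace (W j)] (h : ∀ j, Nonempty (Z j ≃ₜ W j)) :
    Nonempty ((Σ j, Z j) ≃ₜ Σ j, W j) := by
  refine mkH (fun j x => (⟨j, (h j).some x⟩ : Σ j, W j)) (fun j => ?_) ?_ ?_
  · exact (IsOpenEmbedding.sigmaMk (σ := W) (i := j)).comp (h j).some.isOpenEmbedding
  · intro j j' x x' he
    exact congrArg Sigma.fst he
  · rintro ⟨j, y⟩
    exact ⟨j, (h j).some.symm y, by simp⟩

lemma assocH {ι : Type} {Z : ι → ℕ → Type} [∀ j i, TopologicalSpace (Z j i)] :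
    Nonempty ((Σ t : ι × ℕ, Z t.1 t.2) ≃ₜ Σ j, Σ i, Z j i) := by
  refine mkH (fun t x => (⟨t.1, ⟨t.2, x⟩⟩ : Σ j, Σ i, Z j i)) (fun t => ?_) ?_ ?_
  · exact (IsOpenEmbedding.sigmaMk (σ := fun j => Σ i, Z j i) (i := t.1)).comp
      (IsOpenEmbedding.sigmaMk (σ := fun i => Z t.1 i) (i := t.2))
  · rintro ⟨j, i⟩ ⟨j', i'⟩ x x' he
    simp only [Sigma.mk.injEq] at he
    obtain ⟨rfl, he⟩ := he
    have he2 := eq_of_heq he
    have he3 : i = i' := congrArg Sigma.fst he2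
    rw [he3]
  · rintro ⟨j, i, x⟩
    exact ⟨(j, i), x, rfl⟩

lemma reindexH {ι κ : Type} (e : ι ≃ κ) {Z : κ → Type} [∀ j, TopologicalSpace (Z j)] :
    Nonempty ((Σ i, Z (e i)) ≃ₜ Σ t, Z t) := by
  refine mkH (fun i x => (⟨e i, x⟩ : Σ t, Z t)) (fun i => ?_) ?_ ?_
  · exact IsOpenEmbedding.sigmaMk (σ := Z) (i := e i)
  · intro i i' x x' he
    have he2 : e i = e i' := congrArg Sigma.fst he
    exact e.injective he2
  · rintro ⟨t, x⟩
    obtain ⟨i, rfl⟩ := e.surjective t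
    exact ⟨i, x, rfl⟩

/-! the geometric series -/

lemma geo : ∑' i : ℕ, (2 ^ (i + 1) : ENNReal)⁻¹ = 1 := by
  have h := ENNReal.tsum_geometric_add_one (2⁻¹ : ENNReal)
  have h2 : (1 - 2⁻¹ : ENNReal) = 2⁻¹ := ENNReal.one_sub_inv_two
  calc ∑' i : ℕ, (2 ^ (i + 1) : ENNReal)⁻¹ = ∑' i : ℕ, (2⁻¹ : ENNReal) ^ (i + 1) := by
        congr 1; funext i; rw [ENNReal.inv_pow]
    _ = 2⁻¹ * (1 - 2⁻¹)⁻¹ := h
    _ = 1 := by rw [h2, inv_inv]; exact ENNReal.inv_mul_cancel (by norm_num) (by norm_num)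

/-! the data of the partition -/

section
variable {G : AddSubgroup K} {k : ℕ}

/-- the cylinder of depth `N` around `p` is contained in `A` -/
def P (A : Set (G × Fin k)) (p : G × Fin k) (N : ℕ) : Prop :=
  ∀ q : G × Fin k, q.2 = p.2 → (∀ l < N, (q.1 : K) l = (p.1 : K) l) → q ∈ A

noncomputable def Nf (A : Set (G × Fin k)) (p : G × Fin k) : ℕ := sInf {N | P A p N}

lemma exP (A : Set (G × Fin k)) (hA : IsOpen A) (p : G × Fin k) (hp : p ∈ A) : ∃ N, P A p N := by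
  obtain ⟨x, c⟩ := p
  have h1 : IsOpen ((fun y : G => (y, c)) ⁻¹' A) := hA.preimage (by fun_prop)
  obtain ⟨W, hW, hW2⟩ := isOpen_induced_iff.1 h1
  have hx : (x : K) ∈ W := by
    have : x ∈ (Subtype.val ⁻¹' W : Set G) := by rw [hW2]; exact hp
    exact this
  obtain ⟨I, u, hu, hI⟩ := isOpen_pi_iff.1 hW x hx
  refine ⟨I.sup id + 1, ?_⟩
  rintro ⟨y, c'⟩ hc hy
  simp only at hc hy
  subst hc
  have hyW : (y : K) ∈ W := by
    apply hI
    intro l hl
    have hl2 : l < I.sup id + 1 := Nat.lt_succ_of_le (Finset.le_sup (f := id) hl)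
    rw [hy l hl2]
    exact (hu l hl).2
  have : y ∈ (Subtype.val ⁻¹' W : Set G) := hyW
  rw [hW2] at this
  exact this

lemma Nf_spec (A : Set (G × Fin k)) (hA : IsOpen A) (p : G × Fin k) (hp : p ∈ A) :
    P A p (Nf A p) := Nat.sInf_mem (s := {N | P A p N}) (exP A hA p hp)

lemma Nf_le (A : Set (G × Fin k)) (p : G × Fin k) (N : ℕ) (h : P A p N) : Nf A p ≤ N :=
  Nat.sInf_le h

/-- points of the same cylinder have the same depth -/
lemma same (A : Set (G × Fin k)) (hA : IsOpen A) (p : G × Fin k) (hp : p ∈ A) (q : G × Fin k)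
    (h2 : q.2 = p.2) (h1 : ∀ l < Nf A p, (q.1 : K) l = (p.1 : K) l) :
    q ∈ A ∧ Nf A q = Nf A p := by
  have hq : q ∈ A := Nf_spec A hA p hp q h2 h1
  have hle : Nf A q ≤ Nf A p := by
    apply Nf_le
    intro r hr2 hr1
    exact Nf_spec A hA p hp r (hr2.trans h2) (fun l hl => (hr1 l hl).trans (h1 l hl))
  refine ⟨hq, le_antisymm hle ?_⟩
  apply Nf_le
  intro r hr2 hr1
  apply Nf_spec A hA q hq r (hr2.trans h2.symm)
  intro l hl
  rw [hr1 l hl, h1 l (lt_of_lt_of_le hl hle)]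

/-- keys -/
abbrev V (k : ℕ) : Type := (Σ n : ℕ, (Fin n → ZMod 2)) × Fin k

noncomputable def key (A : Set (G × Fin k)) (p : G × Fin k) : V k :=
  (⟨Nf A p, fun l => (p.1 : K) l⟩, p.2)

/-- the point of `K` of a key -/
def S (v : V k) : K := fun l => if h : l < v.1.1 then v.1.2 ⟨l, h⟩ else 0

lemma S_key (A : Set (G × Fin k)) (p : G × Fin k) (l : ℕ) (hl : l < Nf A p) :
    S (key A p) l = (p.1 : K) l := by
  unfold S key
  simp only
  rw [dif_pos hl]

lemma sig (n m : ℕ) (h : n = m) (x y : K) (hxy : ∀ l < n, x l = y l) :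
    (⟨n, fun l => x l⟩ : Σ n : ℕ, (Fin n → ZMod 2)) = ⟨m, fun l => y l⟩ := by
  subst h
  congr 1
  funext l
  exact hxy l l.2

lemma key_eq (A : Set (G × Fin k)) (hA : IsOpen A) (p : G × Fin k) (hp : p ∈ A) (q : G × Fin k)
    (h2 : q.2 = p.2) (h1 : ∀ l < Nf A p, (q.1 : K) l = (p.1 : K) l) : key A q = key A p := by
  obtain ⟨hq, hN⟩ := same A hA p hp q h2 h1
  unfold key
  rw [h2]
  congr 1
  exact sig _ _ hN _ _ (fun l hl => h1 l (hN ▸ hl))

/-- the indices -/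
abbrev J (A : Set (G × Fin k)) : Type := {v : V k // ∃ p ∈ A, key A p = v}

/-- the cylinder of an index in `G` -/
abbrev CG (G : AddSubgroup K) (n : ℕ) (s : K) : Set G := {x : G | ∀ i < n, (x : K) i = s i}

lemma memA (A : Set (G × Fin k)) (hA : IsOpen A) (v : J A) (x : G)
    (hx : ∀ i < v.1.1.1, (x : K) i = S v.1 i) : (x, v.1.2) ∈ A ∧ key A (x, v.1.2) = v.1 := by
  obtain ⟨v, p, hp, rfl⟩ := v
  simp only at hx ⊢
  have h1 : ∀ l < Nf A p, (((x, (key A p).2) : G × Fin k).1 : K) l = (p.1 : K) l := by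
    intro l hl
    rw [← S_key A p l hl]
    exact hx l hl
  exact ⟨(same A hA p hp (x, (key A p).2) rfl h1).1, key_eq A hA p hp (x, (key A p).2) rfl h1⟩

lemma isOpen_CG (n : ℕ) (s : K) : IsOpen (CG G n s) := by
  have : CG G n s = ⋂ i ∈ Finset.range n, {x : G | (x : K) i = s i} := by
    ext x; simp [CG]
  rw [this]
  apply isOpen_biInter_finset
  intro i _
  have hc : Continuous (fun x : G => (x : K) i) := (continuous_apply i).comp continuous_subtype_val
  exact (isOpen_discrete ({s i} : Set (ZMod 2))).preimage hc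

lemma embA (A : Set (G × Fin k)) (hA : IsOpen A) (v : J A) :
    IsOpenEmbedding (fun x : ↥(CG G v.1.1.1 (S v.1)) =>
      (⟨(x.1, v.1.2), (memA A hA v x.1 x.2).1⟩ : ↥A)) := by
  have h1 : IsOpenEmbedding (fun x : ↥(CG G v.1.1.1 (S v.1)) => ((x.1, v.1.2) : G × Fin k)) := by
    have h2 : IsOpenEmbedding (fun x : G => ((x, v.1.2) : G × Fin k)) := by
      refine IsOpenEmbedding.of_continuous_injective_isOpenMap (by fun_prop) ?_ ?_
      · intro x y h
        exact congrArg Prod.fst h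
      · intro U hU
        have : (fun x : G => ((x, v.1.2) : G × Fin k)) '' U = U ×ˢ {v.1.2} := by
          ext ⟨y, c⟩
          simp only [mem_image, Prod.mk.injEq, mem_prod, mem_singleton_iff]
          constructor
          · rintro ⟨x, hx, rfl, rfl⟩; exact ⟨hx, rfl⟩
          · rintro ⟨hx, rfl⟩; exact ⟨y, hx, rfl, rfl⟩
        rw [this]
        exact hU.prod (isOpen_discrete _)
    exact h2.comp (isOpen_CG _ _).isOpenEmbedding_subtypeVal
  exact IsOpenEmbedding.of_comp _ hA.isOpenEmbedding_subtypeVal h1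

lemma partA (A : Set (G × Fin k)) (hA : IsOpen A) :
    Nonempty ((Σ v : J A, ↥(CG G v.1.1.1 (S v.1))) ≃ₜ ↥A) := by
  refine mkH (fun v x => (⟨(x.1, v.1.2), (memA A hA v x.1 x.2).1⟩ : ↥A)) (embA A hA) ?_ ?_
  · intro v v' x x' he
    have he2 : ((x.1, v.1.2) : G × Fin k) = (x'.1, v'.1.2) := congrArg Subtype.val he
    have h1 := (memA A hA v x.1 x.2).2
    have h2 := (memA A hA v' x'.1 x'.2).2
    rw [he2] at h1
    exact Subtype.ext (h1.symm.trans h2)
  · rintro ⟨p, hp⟩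
    refine ⟨⟨key A p, p, hp, rfl⟩, ⟨p.1, ?_⟩, ?_⟩
    · intro l hl
      exact (S_key A p l hl).symm
    · rfl

/-- cylinders of `K` -/
abbrev CK (n : ℕ) (s : K) : Set K := {x : K | ∀ i < n, x i = s i}

lemma meas_CK (n : ℕ) (s : K) : MeasurableSet (CK n s) := by
  have : CK n s = ⋂ i ∈ Finset.range n, {x : K | x i = s i} := by
    ext x; simp [CK]
  rw [this]
  apply Finset.measurableSet_biInter
  intro i _
  have h : Measurable (fun x : K => x i) := measurable_pi_apply i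
  exact h (measurableSet_singleton (s i))

lemma disj (A : Set (G × Fin k)) (hA : IsOpen A) (v v' : J A) (hc : v.1.2 = v'.1.2)
    (hle : v.1.1.1 ≤ v'.1.1.1) (z : K) (h1 : z ∈ CK v.1.1.1 (S v.1))
    (h2 : z ∈ CK v'.1.1.1 (S v'.1)) : v = v' := by
  obtain ⟨v', p', hp', rfl⟩ := v'
  simp only at hc hle h2
  have h3 : ∀ i < v.1.1.1, (p'.1 : K) i = S v.1 i := by
    intro i hi
    have hi' : i < Nf A p' := lt_of_lt_of_le hi hle
    rw [← h1 i hi, h2 i hi', S_key A p' i hi']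
  have h4 := (memA A hA v p'.1 h3).2
  have h5 : ((p'.1, v.1.2) : G × Fin k) = p' := by
    rw [hc]
    rfl
  rw [h5] at h4
  exact Subtype.ext h4.symm

lemma slA (A : Set (G × Fin k)) (hA : IsOpen A) (c : Fin k) :
    sl A c = {x | x ∈ G ∧ x ∈ ⋃ v : {v : J A // v.1.2 = c}, CK v.1.1.1.1 (S v.1.1)} := by
  ext x
  simp only [sl, mem_ofPred_eq, mem_iUnion]
  constructor
  · rintro ⟨h, hx⟩
    refine ⟨h, ⟨⟨key A (⟨x, h⟩, c), _, hx, rfl⟩, rfl⟩, ?_⟩
    intro l hl
    exact (S_key A (⟨x, h⟩, c) l hl).symm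
  · rintro ⟨h, ⟨v, rfl⟩, hx⟩
    exact ⟨h, (memA A hA v ⟨x, h⟩ hx).1⟩

end

theorem opn (hcyl : CylStmt) (htrl : TrlStmt) (hout : OutStmt) (hden : DenStmt)
    (hgnt : GntStmt) : OpnStmt := by
  intro G hG k A hAc hne
  have hA : IsOpen A := hAc.isOpen
  obtain ⟨t1, -, -, t4⟩ := htrl G (hden G hG)
  have t4' := t4 (hgnt G hG)
  -- the measure
  have hmeas : dm A = ∑' v : J A, (2 ^ v.1.1.1 : ENNReal)⁻¹ := by
    have h1 : ∀ c : Fin k, mu (sl A c) =
        ∑' v : {v : J A // v.1.2 = c}, (2 ^ v.1.1.1.1 : ENNReal)⁻¹ := by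
      intro c
      rw [slA A hA c, hout G hG _ (MeasurableSet.iUnion fun v => meas_CK _ _)]
      rw [measure_iUnion]
      · congr 1
        funext v
        exact hcyl _ _
      · intro v v' hvv
        rw [Function.onFun, Set.disjoint_left]
        intro z hz hz'
        apply hvv
        apply Subtype.ext
        rcases le_total v.1.1.1.1 v'.1.1.1.1 with h | h
        · exact disj A hA v.1 v'.1 (v.2.trans v'.2.symm) h z hz hz'
        · exact (disj A hA v'.1 v.1 (v'.2.trans v.2.symm) h z hz' hz).symm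
      · exact fun v => meas_CK _ _
    unfold dm
    simp only [h1]
    rw [← tsum_fintype (L := .unconditional _), ← ENNReal.tsum_sigma]
    exact (Equiv.sigmaFiberEquiv (fun v : J A => v.1.2)).tsum_eq
      (fun v : J A => (2 ^ v.1.1.1 : ENNReal)⁻¹)
  -- the index set
  obtain ⟨p, hp⟩ := hne
  have : Nonempty (J A) := ⟨⟨key A p, p, hp, rfl⟩⟩
  have : Countable (J A) := inferInstance
  have : Infinite (J A × ℕ) := inferInstance
  have : Countable (J A × ℕ) := inferInstance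
  obtain ⟨hd⟩ := nonempty_denumerable (J A × ℕ)
  let e : ℕ ≃ J A × ℕ := (Denumerable.eqv (J A × ℕ)).symm
  refine ⟨fun m => (e m).1.1.1.1 + (e m).2 + 1, ?_, ?_⟩
  · obtain ⟨H1⟩ := partA A hA
    obtain ⟨H2⟩ := congrH (Z := fun v : J A => ↥(CG G v.1.1.1 (S v.1)))
      (W := fun v : J A => ↥(Gc G v.1.1.1)) (fun v => t1 v.1.1.1 (S v.1))
    obtain ⟨H3⟩ := congrH (Z := fun v : J A => ↥(Gc G v.1.1.1))
      (W := fun v : J A => Σ i : ℕ, ↥(Gc G (v.1.1.1 + i + 1))) (fun v => t4' v.1.1.1)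
    obtain ⟨H4⟩ := assocH (ι := J A) (Z := fun v i => ↥(Gc G (v.1.1.1 + i + 1)))
    obtain ⟨H5⟩ := reindexH e (Z := fun t : J A × ℕ => ↥(Gc G (t.1.1.1.1 + t.2 + 1)))
    exact ⟨H1.symm.trans (H2.trans (H3.trans (H4.symm.trans H5.symm)))⟩
  · rw [hmeas]
    rw [e.tsum_eq (fun t : J A × ℕ => (2 ^ (t.1.1.1.1 + t.2 + 1) : ENNReal)⁻¹)]
    rw [ENNReal.tsum_prod' (f := fun t : J A × ℕ => (2 ^ (t.1.1.1.1 + t.2 + 1) : ENNReal)⁻¹)]
    congr 1
    funext v
    have : ∀ i : ℕ, (2 ^ (v.1.1.1 + i + 1) : ENNReal)⁻¹ =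
        (2 ^ v.1.1.1 : ENNReal)⁻¹ * (2 ^ (i + 1) : ENNReal)⁻¹ := by
      intro i
      rw [add_assoc, pow_add, ENNReal.mul_inv]
      · right; exact ENNReal.pow_ne_top (by norm_num)
      · left; exact ENNReal.pow_ne_top (by norm_num)
    simp only [this]
    rw [ENNReal.tsum_mul_left, geo, mul_one]

end Pool.Agent.LSG.H50
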